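import Pool.Agent.H297Z.IETMain

set_option autoImplicit false

namespace Pool.Agent.Results.MP_b9fb92_an.AFractalEmbedding

open Pool.Agent.H297Z.IET

/-- For every `d ≥ 3` some minimal `d`-IET has a non-trivial continuous embedding `h` into a
`d`-PWI of the plane; moreover no nondegenerate subarc of the curve lies on a line or a circle. -/
theorem result (d : ℕ) (hd : 3 ≤ d) :
    ∃ (π : Equiv.Perm (Fin d)) (μ : Fin d → ℝ) (f : ℝ → ℝ) (X : Fin d → Set ℂ) (T : ℂ → ℂ)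
      (h : ℝ → ℂ), Pool.Agent.H297Z.IET.Irreducible π ∧ (∀ j, 0 < μ j) ∧ IsIET π μ f ∧
      IsMinimal μ f ∧ IsPWI X T ∧ IsContEmbedding μ f X T h ∧ ¬ IsTrivial μ h ∧
      ∀ a ∈ whole μ, ∀ b ∈ whole μ, a < b →
        ¬ Collinear ℝ (h '' Set.Icc a b) ∧ ¬ EuclideanGeometry.Cospherical (h '' Set.Icc a b) :=
  main d hd

end Pool.Agent.Results.MP_b9fb92_an.AFractalEmbedding
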